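import Pool.Agent.W203.WS.Stm

set_option autoImplicit false

open MeasureTheory Finset

/-! # The average of the error over the shifts (S_EE) -/

namespace Pool.Agent.W201.WS

open Pool.Agent.W203.WS

lemma cont_e : Continuous e := by
  unfold e
  fun_prop

lemma norm_e (x : ℝ) : ‖e x‖ = 1 := by
  unfold e
  rw [Complex.norm_exp]
  simp

lemma cont_S (k P : ℕ) : Continuous (fun p : ℝ × ℝ => S k P p.1 p.2) := by
  unfold S
  refine continuous_finsetSum _ (fun x _ => ?_)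
  exact cont_e.comp (by fun_prop)

lemma cont_J1 (k P : ℕ) : Continuous (fun t : ℝ => J1 k P t) := by
  unfold J1
  refine intervalIntegral.continuous_parametric_intervalIntegral_of_continuous' ?_ _ _
  exact cont_e.comp (by fun_prop)

lemma norm_S_le (k P : ℕ) (t θ : ℝ) : ‖S k P t θ‖ ≤ 3 * P := by
  unfold S
  refine (norm_sum_le _ _).trans ?_
  simp only [norm_e, sum_const, Nat.card_Ico, nsmul_eq_mul, mul_one]
  have h : 4 * P - P = 3 * P := by omega
  rw [h]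
  push_cast
  exact le_refl _

lemma norm_J1_le (k P : ℕ) (t : ℝ) : ‖J1 k P t‖ ≤ 3 * P := by
  unfold J1
  have hP : (0 : ℝ) ≤ P := Nat.cast_nonneg P
  have h := intervalIntegral.norm_integral_le_of_norm_le_const
    (a := (P : ℝ)) (b := 4 * P) (f := fun u => e (t * u ^ k)) (C := 1)
    (fun x _ => (norm_e _).le)
  refine h.trans ?_
  rw [abs_of_nonneg (by linarith)]
  linarith

lemma norm_D_le (k s P : ℕ) (t : ℝ) (θ : Fin s → ℝ) :
    ‖(∏ i, S k P t (θ i)) - J1 k P t ^ s‖ ≤ 2 * (3 * P) ^ s := by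
  have hP : (0 : ℝ) ≤ 3 * P := by positivity
  refine (norm_sub_le _ _).trans ?_
  have h1 : ‖∏ i, S k P t (θ i)‖ ≤ (3 * (P : ℝ)) ^ s := by
    rw [norm_prod]
    calc ∏ i, ‖S k P t (θ i)‖ ≤ ∏ _i : Fin s, (3 * (P : ℝ)) :=
          prod_le_prod (fun i _ => norm_nonneg _) (fun i _ => norm_S_le k P t (θ i))
      _ = (3 * (P : ℝ)) ^ s := by simp
  have h2 : ‖J1 k P t ^ s‖ ≤ (3 * (P : ℝ)) ^ s := by
    rw [norm_pow]
    exact pow_le_pow_left₀ (norm_nonneg _) (norm_J1_le k P t) s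
  linarith

lemma cont_D (k s P : ℕ) : Continuous (fun p : ℝ × (Fin s → ℝ) =>
    ‖(∏ i, S k P p.1 (p.2 i)) - J1 k P p.1 ^ s‖) := by
  refine Continuous.norm (Continuous.sub ?_ ?_)
  · refine continuous_finsetProd _ (fun i _ => ?_)
    exact (cont_S k P).comp (continuous_fst.prodMk ((continuous_apply i).comp continuous_snd))
  · exact ((cont_J1 k P).comp continuous_fst).pow s

lemma cont_Kh (ε : ℝ) : Continuous (Kh ε) := by
  unfold Kh
  fun_prop

lemma Kh_nonneg {ε : ℝ} (hε : 0 < ε) (t : ℝ) : 0 ≤ Kh ε t := by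
  unfold Kh
  positivity

lemma int_Kh {ε : ℝ} (hε : 0 < ε) : Integrable (Kh ε) := by
  unfold Kh
  have h := (integrable_exp_neg_mul_sq (b := Real.pi * ε ^ 2) (by positivity)).const_mul ε
  refine h.congr (Filter.Eventually.of_forall (fun t => ?_))
  simp only
  congr 2
  ring

lemma vol_cube (s : ℕ) : (volume : Measure (Fin s → ℝ)) (cube s) = 1 := by
  unfold cube
  rw [volume_pi_pi]
  simp

lemma meas_cube (s : ℕ) : MeasurableSet (cube s) := by
  unfold cube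
  exact MeasurableSet.univ_pi (fun _ => measurableSet_Icc)

lemma int_G {k s P : ℕ} {ε : ℝ} (hε : 0 < ε) (A : Set ℝ) :
    Integrable (fun p : ℝ × (Fin s → ℝ) =>
      Kh ε p.1 * ‖(∏ i, S k P p.1 (p.2 i)) - J1 k P p.1 ^ s‖)
      (((volume : Measure ℝ).restrict A).prod
        ((volume : Measure (Fin s → ℝ)).restrict (cube s))) := by
  haveI : IsFiniteMeasure ((volume : Measure (Fin s → ℝ)).restrict (cube s)) :=
    ⟨by rw [Measure.restrict_apply_univ, vol_cube]; exact ENNReal.one_lt_top⟩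
  have h1 : Integrable (fun p : ℝ × (Fin s → ℝ) => Kh ε p.1 * (2 * (3 * (P : ℝ)) ^ s))
      (((volume : Measure ℝ).restrict A).prod
        ((volume : Measure (Fin s → ℝ)).restrict (cube s))) :=
    Integrable.mul_prod (f := Kh ε) (g := fun _ => (2 * (3 * (P : ℝ)) ^ s))
      (int_Kh hε).restrict (integrable_const _)
  refine h1.mono' ?_ (Filter.Eventually.of_forall (fun p => ?_))
  · exact (((cont_Kh ε).comp continuous_fst).mul (cont_D k s P)).aestronglyMeasurable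
  · rw [Real.norm_eq_abs, abs_of_nonneg (mul_nonneg (Kh_nonneg hε _) (norm_nonneg _))]
    exact mul_le_mul_of_nonneg_left (norm_D_le k s P p.1 p.2) (Kh_nonneg hε _)

lemma int_G1 {k s P : ℕ} {ε : ℝ} (hε : 0 < ε) (θ : Fin s → ℝ) :
    Integrable (fun t : ℝ => Kh ε t * ‖(∏ i, S k P t (θ i)) - J1 k P t ^ s‖) := by
  have h1 : Integrable (fun t : ℝ => Kh ε t * (2 * (3 * (P : ℝ)) ^ s)) :=
    (int_Kh hε).mul_const _
  refine h1.mono' ?_ (Filter.Eventually.of_forall (fun p => ?_))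
  · exact ((cont_Kh ε).mul ((cont_D k s P).comp
      (continuous_id.prodMk continuous_const))).aestronglyMeasurable
  · rw [Real.norm_eq_abs, abs_of_nonneg (mul_nonneg (Kh_nonneg hε _) (norm_nonneg _))]
    exact mul_le_mul_of_nonneg_left (norm_D_le k s P p θ) (Kh_nonneg hε _)

lemma cont_a (k P : ℕ) : Continuous (fun t : ℝ => ∫ θ in (0 : ℝ)..1, ‖S k P t θ‖ ^ 2) := by
  refine intervalIntegral.continuous_parametric_intervalIntegral_of_continuous' ?_ _ _
  exact ((cont_S k P).norm).pow 2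

lemma a_nonneg (k P : ℕ) (t : ℝ) : 0 ≤ ∫ θ in (0 : ℝ)..1, ‖S k P t θ‖ ^ 2 :=
  intervalIntegral.integral_nonneg (by norm_num) (fun _ _ => by positivity)

lemma a_le (k P : ℕ) (t : ℝ) : ∫ θ in (0 : ℝ)..1, ‖S k P t θ‖ ^ 2 ≤ (3 * P) ^ 2 := by
  have h := intervalIntegral.norm_integral_le_of_norm_le_const
    (a := (0 : ℝ)) (b := 1) (f := fun θ => ‖S k P t θ‖ ^ 2) (C := (3 * (P : ℝ)) ^ 2)
    (fun x _ => by
      rw [Real.norm_eq_abs, abs_of_nonneg (by positivity)]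
      exact pow_le_pow_left₀ (norm_nonneg _) (norm_S_le k P t x) 2)
  rw [Real.norm_eq_abs] at h
  have h2 := le_abs_self (∫ θ in (0 : ℝ)..1, ‖S k P t θ‖ ^ 2)
  have h3 : |(1 : ℝ) - 0| = 1 := by norm_num
  rw [h3, mul_one] at h
  exact h2.trans h

lemma int_Ka {k s P : ℕ} {ε : ℝ} (hε : 0 < ε) :
    Integrable (fun t : ℝ => Kh ε t * (∫ θ in (0 : ℝ)..1, ‖S k P t θ‖ ^ 2) ^ ((s : ℝ) / 2)) := by
  have h1 : Integrable (fun t : ℝ => Kh ε t * (((3 * (P : ℝ)) ^ 2) ^ ((s : ℝ) / 2))) :=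
    (int_Kh hε).mul_const _
  have hs : (0 : ℝ) ≤ (s : ℝ) / 2 := by positivity
  refine h1.mono' ?_ (Filter.Eventually.of_forall (fun t => ?_))
  · exact ((cont_Kh ε).mul ((cont_a k P).rpow_const (fun _ => Or.inr hs))).aestronglyMeasurable
  · have h0 := Real.rpow_nonneg (a_nonneg k P t) ((s : ℝ) / 2)
    rw [Real.norm_eq_abs, abs_of_nonneg (mul_nonneg (Kh_nonneg hε _) h0)]
    exact mul_le_mul_of_nonneg_left
      (Real.rpow_le_rpow (a_nonneg k P t) (a_le k P t) hs) (Kh_nonneg hε _)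

theorem t_EE (h1 : S_R1) (h2 : S_R2) (h3 : S_AV) : S_EE := by
  intro k s hk hs
  obtain ⟨C1, hC1, H1⟩ := h1 k s hk hs
  obtain ⟨C2, hC2, H2⟩ := h2 k s hk hs
  refine ⟨C1 + 2 * C2, by positivity, ?_⟩
  intro P ε hP hε hε1
  haveI : IsFiniteMeasure ((volume : Measure (Fin s → ℝ)).restrict (cube s)) :=
    ⟨by rw [Measure.restrict_apply_univ, vol_cube]; exact ENNReal.one_lt_top⟩
  have hP1 : (1 : ℝ) ≤ P := by exact_mod_cast hP
  have hI : Integrable (fun θ => Er k s P ε θ)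
      ((volume : Measure (Fin s → ℝ)).restrict (cube s)) := by
    have h := (int_G (k := k) (s := s) (P := P) hε Set.univ).integral_prod_right
    simp only [Measure.restrict_univ] at h
    exact h
  refine ⟨hI, ?_⟩
  set I : Set ℝ := Set.Icc (-T0 k P) (T0 k P) with hIdef
  have hI1 : Integrable (fun θ : Fin s → ℝ =>
      ∫ t in I, Kh ε t * ‖(∏ i, S k P t (θ i)) - J1 k P t ^ s‖)
      ((volume : Measure (Fin s → ℝ)).restrict (cube s)) :=
    (int_G (k := k) (s := s) (P := P) hε I).integral_prod_right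
  have hI2 : Integrable (fun θ : Fin s → ℝ =>
      ∫ t in Iᶜ, Kh ε t * ‖(∏ i, S k P t (θ i)) - J1 k P t ^ s‖)
      ((volume : Measure (Fin s → ℝ)).restrict (cube s)) :=
    (int_G (k := k) (s := s) (P := P) hε Iᶜ).integral_prod_right
  have hsplit : ∀ θ : Fin s → ℝ, Er k s P ε θ =
      (∫ t in I, Kh ε t * ‖(∏ i, S k P t (θ i)) - J1 k P t ^ s‖) +
      ∫ t in Iᶜ, Kh ε t * ‖(∏ i, S k P t (θ i)) - J1 k P t ^ s‖ := by
    intro θ
    unfold Er
    exact (integral_add_compl measurableSet_Icc (int_G1 hε θ)).symm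
  have hsum : ∫ θ in cube s, Er k s P ε θ =
      (∫ θ in cube s, ∫ t in I, Kh ε t * ‖(∏ i, S k P t (θ i)) - J1 k P t ^ s‖) +
      ∫ θ in cube s, ∫ t in Iᶜ, Kh ε t * ‖(∏ i, S k P t (θ i)) - J1 k P t ^ s‖ := by
    rw [← integral_add hI1 hI2]
    exact integral_congr_ae (Filter.Eventually.of_forall (fun θ => hsplit θ))
  have hfirst : (∫ θ in cube s, ∫ t in I, Kh ε t * ‖(∏ i, S k P t (θ i)) - J1 k P t ^ s‖) ≤
      C1 * ε * (P : ℝ) ^ ((s : ℝ) - k - 1 / 2) := by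
    have hc : (∫ θ in cube s, ∫ t in I, Kh ε t * ‖(∏ i, S k P t (θ i)) - J1 k P t ^ s‖) ≤
        ∫ _θ in cube s, C1 * ε * (P : ℝ) ^ ((s : ℝ) - 1 - k) := by
      refine setIntegral_mono_on hI1 (integrable_const _) (meas_cube s) (fun θ hθ => ?_)
      exact H1 P ε θ hP hε hε1 hθ
    refine hc.trans ?_
    rw [setIntegral_const, Measure.real, vol_cube, ENNReal.toReal_one, one_smul]
    refine mul_le_mul_of_nonneg_left ?_ (by positivity)
    exact Real.rpow_le_rpow_of_exponent_le hP1 (by linarith)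
  have hsecond : (∫ θ in cube s, ∫ t in Iᶜ, Kh ε t * ‖(∏ i, S k P t (θ i)) - J1 k P t ^ s‖) ≤
      2 * (C2 * (ε * (P : ℝ) ^ ((s : ℝ) - k - 1 / 2) + (P : ℝ) ^ ((s : ℝ) / 2))) := by
    have hsw : (∫ θ in cube s, ∫ t in Iᶜ, Kh ε t * ‖(∏ i, S k P t (θ i)) - J1 k P t ^ s‖) =
        ∫ t in Iᶜ, ∫ θ in cube s, Kh ε t * ‖(∏ i, S k P t (θ i)) - J1 k P t ^ s‖ :=
      (integral_integral_swap (f := fun (t : ℝ) (θ : Fin s → ℝ) =>
        Kh ε t * ‖(∏ i, S k P t (θ i)) - J1 k P t ^ s‖)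
        (int_G (k := k) (s := s) (P := P) hε Iᶜ)).symm
    rw [hsw]
    have hle : ∫ t in Iᶜ, ∫ θ in cube s, Kh ε t * ‖(∏ i, S k P t (θ i)) - J1 k P t ^ s‖ ≤
        ∫ t in Iᶜ, 2 * (Kh ε t * (∫ θ in (0 : ℝ)..1, ‖S k P t θ‖ ^ 2) ^ ((s : ℝ) / 2)) := by
      refine integral_mono (int_G (k := k) (s := s) (P := P) hε Iᶜ).integral_prod_left
        ((int_Ka hε).restrict.const_mul 2) (fun t => ?_)
      simp only
      rw [integral_const_mul]
      have h := mul_le_mul_of_nonneg_left (h3 k s P t (by omega)) (Kh_nonneg hε t)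
      linarith
    refine hle.trans ?_
    rw [integral_const_mul]
    exact mul_le_mul_of_nonneg_left (H2 P ε hP hε hε1) (by norm_num)
  rw [hsum]
  have hp : 0 ≤ C1 * (P : ℝ) ^ ((s : ℝ) / 2) := by positivity
  nlinarith [hfirst, hsecond, hp]

end Pool.Agent.W201.WS
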